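import Pool.Agent.Y503.RB.Stm

/-!
# RB-DET: the Jacobian determinant of `cmap`
-/

set_option autoImplicit false

namespace Pool.Agent.Y421.RB

open scoped ContDiff RealInnerProductSpace ENNReal
open MeasureTheory Set Pool.Agent.Y503.RB

/-- the coordinates as a continuous linear map -/
noncomputable def Q : E4 →L[ℝ] ℝ × ℂ :=
  (EuclideanSpace.proj (2 : Fin 4) : E4 →L[ℝ] ℝ).prod
    (((Complex.equivRealProdCLM.symm : (ℝ × ℝ) ≃L[ℝ] ℂ) : (ℝ × ℝ) →L[ℝ] ℂ).comp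
      ((EuclideanSpace.proj (0 : Fin 4) : E4 →L[ℝ] ℝ).prod
        (EuclideanSpace.proj (1 : Fin 4) : E4 →L[ℝ] ℝ)))

theorem Q_apply (x : E4) : Q x = (x 2, zc x) := rfl

/-- the matrix of an endomorphism of `E4` -/
theorem det_eq (A : E4 →L[ℝ] E4) : A.det = (cols (A (EuclideanSpace.single 0 1))
    (A (EuclideanSpace.single 1 1)) (A (EuclideanSpace.single 2 1))
    (A (EuclideanSpace.single 3 1))).det := by
  have h1 : A.det = LinearMap.det (A : E4 →ₗ[ℝ] E4) := rfl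
  rw [h1, ← LinearMap.det_toMatrix (EuclideanSpace.basisFun (Fin 4) ℝ).toBasis]
  congr 1
  ext i j
  rw [LinearMap.toMatrix_apply]
  fin_cases j <;> simp [cols]

theorem det_scale (r : ℝ) (a b c d : E4) :
    (cols (r • a) (r • b) (r • c) d).det = r ^ 3 * (cols a b c d).det := by
  have h1 : cols (r • a) (r • b) (r • c) d =
      Matrix.of fun i j => (![r, r, r, 1] : Fin 4 → ℝ) j * (cols a b c d) i j := by
    ext i j
    fin_cases j <;> simp [cols]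
  have h2 : ∏ i, (![r, r, r, 1] : Fin 4 → ℝ) i = r ^ 3 := by
    simp [Fin.prod_univ_succ]
    ring
  rw [h1, Matrix.det_mul_row, h2]

theorem fffDet_pos {φ : ℂ → E4} {z : ℂ} (h : Function.Injective (fderiv ℝ φ z)) :
    0 < fffDet φ z := by
  set A := fderiv ℝ φ z with hA
  have h2 : A Complex.I ≠ 0 := by
    intro h3
    have h4 := h (h3.trans (map_zero A).symm)
    exact Complex.I_ne_zero h4
  have hpos : 0 < ⟪A Complex.I, A Complex.I⟫ := real_inner_self_pos.mpr h2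
  show 0 < ⟪A 1, A 1⟫ * ⟪A Complex.I, A Complex.I⟫ - ⟪A 1, A Complex.I⟫ ^ 2
  have key : ∀ t s : ℝ, t = ⟪A Complex.I, A Complex.I⟫ → s = ⟪A 1, A Complex.I⟫ →
      0 < ⟪A 1, A 1⟫ * t - s ^ 2 := by
    intro t s ht hs
    rw [← ht] at hpos
    have h5 : A (t • (1 : ℂ) - s • Complex.I) ≠ 0 := by
      intro h3
      have h4 := h (h3.trans (map_zero A).symm)
      have h6 := congrArg Complex.re h4
      simp at h6
      exact hpos.ne' h6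
    have h7 := real_inner_self_pos.mpr h5
    rw [map_sub, map_smul, map_smul] at h7
    simp only [inner_sub_left, inner_sub_right, real_inner_smul_left, real_inner_smul_right] at h7
    rw [real_inner_comm (A 1) (A Complex.I), ← hs, ← ht] at h7
    have h8 : 0 < t * (⟪A 1, A 1⟫ * t - s ^ 2) := by
      nlinarith [h7]
    exact (mul_pos_iff_of_pos_left hpos).mp h8
  exact key _ _ rfl rfl

theorem Q0 : Q (EuclideanSpace.single 0 1) = (0, 1) := by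
  rw [Q_apply]
  refine Prod.ext (by simp) (Complex.ext ?_ ?_) <;> simp [zc]

theorem Q1 : Q (EuclideanSpace.single 1 1) = (0, Complex.I) := by
  rw [Q_apply]
  refine Prod.ext (by simp) (Complex.ext ?_ ?_) <;> simp [zc]

theorem Q2 : Q (EuclideanSpace.single 2 1) = (1, 0) := by
  rw [Q_apply]
  refine Prod.ext (by simp) (Complex.ext ?_ ?_) <;> simp [zc]

theorem Q3 : Q (EuclideanSpace.single 3 1) = (0, 0) := by
  rw [Q_apply]
  refine Prod.ext (by simp) (Complex.ext ?_ ?_) <;> simp [zc]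

theorem det_of (hJ : St_JAC) (hD : St_DG) (hS : St_SYM) : St_DET := by
  intro φ N₁ N₂ U hP hF x hx
  have h0 := hD φ N₁ N₂ U hP hF (x 2) (zc x) hx
  obtain ⟨n, hn⟩ : ∃ n, n = nor N₁ N₂ (x 2) (zc x) := ⟨_, rfl⟩
  obtain ⟨m, hm⟩ : ∃ m, m = nor N₁ N₂ (x 2 + Real.pi / 2) (zc x) := ⟨_, rfl⟩
  obtain ⟨G, hG⟩ : ∃ G, G = gmap φ N₁ N₂ (x 2, zc x) := ⟨_, rfl⟩
  obtain ⟨ρ, hρ⟩ : ∃ ρ, ρ = rad (φ (zc x)) (nor N₁ N₂ (x 2) (zc x)) := ⟨_, rfl⟩
  simp only [← hn, ← hm, ← hG] at h0 hρ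
  rw [← hρ] at h0
  obtain ⟨hg, hn1, hm1, hnm, hG1, hρ0, hρ1, hnv, hGq, hw, δ₃, hδ⟩ := h0
  have hφ : ContDiffAt ℝ ∞ φ (zc x) := hP.smooth.contDiffAt (hP.isOpen.mem_nhds hx)
  have hgQ : ContDiffAt ℝ ∞ (fun x => gmap φ N₁ N₂ (Q x)) x := by
    have h1 : ContDiffAt ℝ ∞ (gmap φ N₁ N₂) (Q x) := by rw [Q_apply]; exact hg
    exact h1.comp x Q.contDiff.contDiffAt
  have hP3 : ContDiffAt ℝ ∞ (fun x : E4 => (EuclideanSpace.proj (3 : Fin 4) : E4 →L[ℝ] ℝ) x) x :=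
    (EuclideanSpace.proj (3 : Fin 4) : E4 →L[ℝ] ℝ).contDiff.contDiffAt
  refine ⟨hP3.smul hgQ, ?_⟩
  have hgd : HasFDerivAt (gmap φ N₁ N₂) (fderiv ℝ (gmap φ N₁ N₂) (x 2, zc x)) (Q x) :=
    (hg.differentiableAt (by simp)).hasFDerivAt
  have hder := ((EuclideanSpace.proj (3 : Fin 4) : E4 →L[ℝ] ℝ).hasFDerivAt (x := x)).smul
    (hgd.comp x Q.hasFDerivAt)
  have hcm : fderiv ℝ (cmap φ N₁ N₂) x = _ := hder.fderiv
  obtain ⟨A, hA⟩ : ∃ A, A = fderiv ℝ (gmap φ N₁ N₂) (x 2, zc x) := ⟨_, rfl⟩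
  rw [← hA] at hcm hGq hw hδ
  have hval : ∀ v, fderiv ℝ (cmap φ N₁ N₂) x v = x 3 • A (Q v) + v 3 • G := by
    intro v
    rw [hcm, hG]
    rfl
  rw [det_eq, hval, hval, hval, hval, Q0, Q1, Q2, Q3]
  have e0 : (EuclideanSpace.single (0 : Fin 4) (1 : ℝ)) 3 = 0 := by simp
  have e1 : (EuclideanSpace.single (1 : Fin 4) (1 : ℝ)) 3 = 0 := by simp
  have e2 : (EuclideanSpace.single (2 : Fin 4) (1 : ℝ)) 3 = 0 := by simp
  have e3 : (EuclideanSpace.single (3 : Fin 4) (1 : ℝ)) 3 = 1 := by simp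
  have e4 : A ((0 : ℝ), (0 : ℂ)) = 0 := map_zero A
  rw [e0, e1, e2, e3, e4, zero_smul, add_zero, add_zero, add_zero, smul_zero, zero_add, one_smul,
    det_scale, abs_mul, abs_pow, ← hn]
  congr 1
  obtain ⟨w₁, δ₁, hw1, hnw1, hbw1⟩ := hw 1
  obtain ⟨w₂, δ₂, hw2, hnw2, hbw2⟩ := hw Complex.I
  have J := hJ (d1 φ 1 (zc x)) (d1 φ Complex.I (zc x)) n m G w₁ w₂ (ρ • m) ((1 - ρ) • A (0, 1))
    ((1 - ρ) • A (0, Complex.I)) ((1 - ρ) • A (1, 0)) δ₁ δ₂ δ₃ ρ hn1 hm1 hG1 hnm (hnv 1).1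
    (hnv Complex.I).1 (hnv 1).2 (hnv Complex.I).2 hnw1 hnw2 rfl hw1 hw2 hδ
    (by rw [real_inner_smul_right, hGq, mul_zero]) (by rw [real_inner_smul_right, hGq, mul_zero])
    (by rw [real_inner_smul_right, hGq, mul_zero])
  have hsym : exc φ n Complex.I 1 (zc x) = exc φ n 1 Complex.I (zc x) := by
    unfold exc sff fff
    rw [hS φ (zc x) hφ Complex.I 1, real_inner_comm (d1 φ Complex.I (zc x)) (d1 φ 1 (zc x))]
  rw [det_scale, hbw1, hbw1, hbw2, hbw2, hsym] at J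
  have hFpos : 0 < fffDet φ (zc x) := fffDet_pos (hP.imm _ hx)
  have hF1 : ⟪d1 φ 1 (zc x), d1 φ 1 (zc x)⟫ * ⟪d1 φ Complex.I (zc x), d1 φ Complex.I (zc x)⟫ -
      ⟪d1 φ 1 (zc x), d1 φ Complex.I (zc x)⟫ ^ 2 = fffDet φ (zc x) := rfl
  have hE1 : -exc φ n 1 1 (zc x) * -exc φ n Complex.I Complex.I (zc x) -
      -exc φ n 1 Complex.I (zc x) * -exc φ n 1 Complex.I (zc x) = excDet φ n (zc x) := by
    unfold excDet
    ring
  rw [hF1, hE1] at J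
  show |(cols (A (0, 1)) (A (0, Complex.I)) (A (1, 0)) G).det| =
    rad (φ (zc x)) n / (1 - rad (φ (zc x)) n) ^ 3 * |excDet φ n (zc x)| / √(fffDet φ (zc x))
  rw [← hρ]
  obtain ⟨Δ, hΔ⟩ : ∃ Δ, Δ = (cols (A (0, 1)) (A (0, Complex.I)) (A (1, 0)) G).det := ⟨_, rfl⟩
  obtain ⟨E, hE⟩ : ∃ E, E = excDet φ n (zc x) := ⟨_, rfl⟩
  obtain ⟨F, hFd⟩ : ∃ F, F = fffDet φ (zc x) := ⟨_, rfl⟩
  rw [← hΔ, ← hE, ← hFd] at J ⊢
  rw [← hFd] at hFpos
  have hs0 : 0 < √F := Real.sqrt_pos.mpr hFpos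
  have hr : 0 < 1 - ρ := by linarith
  have h1 : ((1 - ρ) ^ 3 * |Δ| * √F) ^ 2 = (ρ * |E|) ^ 2 := by
    rw [mul_pow, mul_pow, mul_pow ρ, sq_abs, sq_abs, Real.sq_sqrt hFpos.le]
    linear_combination J
  have h2 : (1 - ρ) ^ 3 * |Δ| * √F = ρ * |E| :=
    (sq_eq_sq₀ (by positivity) (by positivity)).mp h1
  rw [eq_div_iff hs0.ne', div_mul_eq_mul_div, eq_div_iff (by positivity), ← h2]
  ring

end Pool.Agent.Y421.RB
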